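import Pool.Agent.Helper77.Tower.Proof

set_option autoImplicit false

open MeasureTheory

namespace Pool.Agent.Shelf.MP_725b61_nt.TowerPeriods

open Pool.Agent.Helper23.PeriodDefs Pool.Agent.Helper77.TW

/-- The integral of a polynomial over a tower of dimension `n` is a polynomial in `π` of degree at
most `n / 2` with real algebraic coefficients; these integrals generate the algebra `K[π]`, which
does not contain `1 / π`. -/
theorem result :
    (∀ (n : ℕ) (D : Set (Fin n → ℝ)), Tower n D → ∀ P : MultiPoly n,
      ∃ p : Polynomial RealAlg, p.natDegree ≤ n / 2 ∧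
        ∫ x in D, evalMulti P x = Polynomial.aeval Real.pi p) ∧
    towerRing = Algebra.adjoin RealAlg {Real.pi} ∧ (Real.pi)⁻¹ ∉ towerRing :=
  Pool.Agent.Helper77.TW.main

end Pool.Agent.Shelf.MP_725b61_nt.TowerPeriods
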